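import Mathlib
import Pool.Agent.Q72.GH.Very

set_option autoImplicit false

/-!
# Strata of general hypersurfaces and the hyperplane sections of entire curves

Let `F 0, ..., F (q-1)` be general forms of degrees `d i` in `N + 1` variables, `Z` a set of indices,
and let `X` be the quasi-projective set `F i = 0` for `i ∈ Z`, `F i ≠ 0` for `i ∉ Z` in `P^N`, where
`∑ d i + |Z| ≥ 2 N + 1` (complements of general hypersurfaces of degree `≥ 2 N + 1`, hypersurfaces of
degree `≥ 2 N`, complete intersections, and their hypersurface complements). The Lang-Vojta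
conjectures (MP_dc0411_ag, Q1) predict that `X` contains no nonconstant entire curve. We consider all
nonconstant entire curves in these `X`, for all forms in a nonempty Zariski-open set (the complement
of the zeros of a nonzero polynomial with integral coefficients in the coefficients of the forms),
and all systems of `k + 1` hyperplanes `ℓ i = 0` of `P^N` without a common point. The sections of an
entire curve are its intersections, with multiplicities, with these hyperplanes. We prove:

* among any `M + 1` nonconstant entire curves in `X` with the same sections two differ by a diagonal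
  matrix in the coordinates `ℓ i`;
* if `k ≥ N + 1` and any `N + 1` of the `ℓ i` are linearly independent, then among any `M + 1` entire
  curves in `X` which have the same sections and are not contained in hyperplanes two are equal;
* every nonconstant entire curve `f` in `X` is rigid: only finitely many entire curves in `X` have
  the same sections and the same Zariski closure as `f`; every nonconstant entire function `h` for
  which `f ∘ h` has the same sections as `f` is `a z + b` with a root of unity `a`; and if the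
  translation by `b` leaves the sections invariant then a multiple `m b`, `m > 0`, is a period;
* if `X` is the complement of a hypersurface in a closed set, then these numbers `b` are rational
  multiples of one number;
* if the forms are very general and the homogeneous coordinates of `f` are of exponential type, then
  no translation other than the identity leaves the sections of `f` invariant.
-/

namespace Pool.Agent.Results.MP_dc0411_ag.GeneralLogPairs

open MvPolynomial

/-- The indices of the coefficients of systems of forms of degrees `d i` in `N + 1` variables. -/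
abbrev Index (N : ℕ) {q : ℕ} (d : Fin q → ℕ) : Type :=
  Σ i : Fin q, {α : Fin (N + 1) →₀ ℕ // α.degree = d i}

/-- The value of the polynomial `h` at the coefficients of the forms `F i`. -/
noncomputable def valueAt {N q : ℕ} {d : Fin q → ℕ} (h : MvPolynomial (Index N d) ℤ)
    (F : Fin q → MvPolynomial (Fin (N + 1)) ℂ) : ℂ :=
  aeval (fun x : Index N d => coeff x.2.1 (F x.1)) h

variable {N q k : ℕ}

/-- `f` is a vector of homogeneous coordinates without common zeros of a nonconstant holomorphic map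
from the complex plane to the quasi-projective set `F i = 0`, `i ∈ Z`, `F i ≠ 0`, `i ∉ Z`. -/
def Curve (F : Fin q → MvPolynomial (Fin (N + 1)) ℂ) (Z : Finset (Fin q))
    (f : ℂ → Fin (N + 1) → ℂ) : Prop :=
  Differentiable ℂ f ∧
    (∀ z, f z ≠ 0 ∧ (∀ i ∈ Z, eval (f z) (F i) = 0) ∧ ∀ i, i ∉ Z → eval (f z) (F i) ≠ 0) ∧
    ∃ z w, ∀ c : ℂ, f z ≠ c • f w

/-- A system of `k + 1` linear forms, the coordinates of the linear map `ℓ`. -/
abbrev Forms (N k : ℕ) : Type := (Fin (N + 1) → ℂ) →ₗ[ℂ] (Fin (k + 1) → ℂ)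

/-- The hyperplanes have no common point. -/
def NoCommonPoint (ℓ : Forms N k) : Prop := ∀ x, ℓ x = 0 → x = 0

/-- Any `N + 1` of the linear forms are linearly independent. -/
def GeneralPosition (ℓ : Forms N k) : Prop :=
  ∀ I : Finset (Fin (k + 1)), I.card = N + 1 → ∀ x, (∀ i ∈ I, ℓ x i = 0) → x = 0

/-- `f` and `g` have the same intersections, with the same multiplicities, with the hyperplanes. -/
def SameSections (ℓ : Forms N k) (f g : ℂ → Fin (N + 1) → ℂ) : Prop :=
  ∀ i z, analyticOrderAt (fun z => ℓ (f z) i) z = analyticOrderAt (fun z => ℓ (g z) i) z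

/-- `f` and `g` give the same curve. -/
def SameCurve (f g : ℂ → Fin (N + 1) → ℂ) : Prop := ∀ z, ∃ c : ℂ, f z = c • g z

/-- In the coordinates `ℓ i` the curve `f` is `g` multiplied by a constant invertible diagonal
matrix. -/
def DiagonallyEquivalent (ℓ : Forms N k) (f g : ℂ → Fin (N + 1) → ℂ) : Prop :=
  ∃ D : Fin (k + 1) → ℂ, (∀ i, D i ≠ 0) ∧ ∀ z, ∃ c : ℂ, ∀ i, ℓ (f z) i = c * (D i * ℓ (g z) i)

/-- The curve `f` is not contained in a hyperplane. -/
def NotInHyperplane (f : ℂ → Fin (N + 1) → ℂ) : Prop :=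
  ∀ a : Fin (N + 1) → ℂ, (∀ z, ∑ j, a j * f z j = 0) → a = 0

/-- The curves `g` and `f` have the same Zariski closure. -/
def SameClosure (g f : ℂ → Fin (N + 1) → ℂ) : Prop :=
  ∀ H : MvPolynomial (Fin (N + 1)) ℂ, (∃ e, H.IsHomogeneous e) →
    ((∀ z, eval (g z) H = 0) ↔ ∀ z, eval (f z) H = 0)

/-- The entire curve `f` in `X` is rigid with respect to the hyperplanes. -/
def Rigid (F : Fin q → MvPolynomial (Fin (N + 1)) ℂ) (Z : Finset (Fin q)) (ℓ : Forms N k)
    (f : ℂ → Fin (N + 1) → ℂ) : Prop :=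
  (∃ M : ℕ, ∀ g : Fin (M + 1) → ℂ → Fin (N + 1) → ℂ, (∀ s, Curve F Z (g s)) →
    (∀ s, SameClosure (g s) f) → (∀ s, SameSections ℓ (g s) f) →
    ∃ s t, s ≠ t ∧ SameCurve (g s) (g t)) ∧
  (∀ h : ℂ → ℂ, Differentiable ℂ h → (∃ z w, h z ≠ h w) → SameSections ℓ (fun z => f (h z)) f →
    ∃ a b : ℂ, (∃ m : ℕ, 0 < m ∧ a ^ m = 1) ∧ ∀ z, h z = a * z + b) ∧
  ∀ b, SameSections ℓ (fun z => f (z + b)) f →
    ∃ m : ℕ, 0 < m ∧ SameCurve (fun z => f (z + m * b)) f

/-- The homogeneous coordinates are of exponential type. -/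
def ExponentialType (f : ℂ → Fin (N + 1) → ℂ) : Prop :=
  ∃ C : ℝ, ∀ z l, ‖f z l‖ ≤ Real.exp (C * (‖z‖ + 1))

/-- **General strata.** -/
theorem result (N q k : ℕ) (d : Fin q → ℕ) (Z : Finset (Fin q))
    (hd : 2 * N + 1 ≤ ∑ i, d i + Z.card) :
    ∃ (M : ℕ) (h : MvPolynomial (Index N d) ℤ) (h' : ℕ → MvPolynomial (Index N d) ℤ),
      h ≠ 0 ∧ (∀ r, h' r ≠ 0) ∧
      ∀ F : Fin q → MvPolynomial (Fin (N + 1)) ℂ, (∀ i, (F i).IsHomogeneous (d i)) →
        valueAt h F ≠ 0 → ∀ ℓ : Forms N k, NoCommonPoint ℓ →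
          (∀ g : Fin (M + 1) → ℂ → Fin (N + 1) → ℂ, (∀ s, Curve F Z (g s)) →
            (∀ s t, SameSections ℓ (g s) (g t)) →
            ∃ s t, s ≠ t ∧ DiagonallyEquivalent ℓ (g s) (g t)) ∧
          (N + 1 ≤ k → GeneralPosition ℓ → ∀ g : Fin (M + 1) → ℂ → Fin (N + 1) → ℂ,
            (∀ s, Curve F Z (g s)) → (∀ s, NotInHyperplane (g s)) →
            (∀ s t, SameSections ℓ (g s) (g t)) → ∃ s t, s ≠ t ∧ SameCurve (g s) (g t)) ∧
          ∀ f, Curve F Z f → Rigid F Z ℓ f ∧
            ((∃ i, i ∉ Z ∧ 0 < d i) →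
              ∃ c : ℂ, ∀ b, SameSections ℓ (fun z => f (z + b)) f → ∃ r : ℚ, b = r * c) ∧
            ((∀ r, valueAt (h' r) F ≠ 0) → ExponentialType f →
              ∀ b, SameSections ℓ (fun z => f (z + b)) f → b = 0) := by
  classical
  obtain ⟨h1, h10, h1s⟩ := Pool.Agent.Q51.HG.gen_sparse (N := N) d Z hd (k + 1)
  choose h3 h30 h3s using fun r : ℕ => Pool.Agent.Q51.HG.gen_sparse (N := N) d Z hd r
  obtain ⟨M, hM⟩ := Pool.Agent.Q72.GH.diag d k
  refine ⟨M, h1, h3, h10, h30, ?_⟩
  intro F hF hv ℓ hℓ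
  have hno : Pool.Agent.Q72.GH.NoSparse F Z (k + 1) := h1s ℂ F hF hv
  have hcv : ∀ f, Curve F Z f → Pool.Agent.W603.BPR.EntireCurve
      (Ideal.span (Pool.Agent.Q72.GH.St F Z)) (∏ i ∈ Zᶜ, F i) f := by
    rintro f ⟨a1, a2, a3⟩
    refine ⟨a1, fun z => ⟨(a2 z).1, fun H hH => ?_, ?_⟩, a3⟩
    · have h4 : Ideal.span (Pool.Agent.Q72.GH.St F Z) ≤ RingHom.ker (eval (f z)) := by
        rw [Ideal.span_le]
        rintro G ⟨i, hi, rfl⟩
        exact (a2 z).2.1 i hi
      exact h4 hH
    · rw [map_prod]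
      exact Finset.prod_ne_zero_iff.2 fun i hi => (a2 z).2.2 i (Finset.mem_compl.1 hi)
  refine ⟨?_, ?_, ?_⟩
  · intro g hg hs
    obtain ⟨s, t, hst, D, hD0, hD⟩ := hM N F Z ℓ hF hℓ hno g
      (fun s => hcv _ (hg s)) fun s t i z => hs s t i z
    refine ⟨s, t, hst, D, hD0, fun z => ?_⟩
    obtain ⟨c, hc⟩ := hD z
    exact ⟨c, fun i => congrFun hc i⟩
  · intro hk hG g hg hn hs
    obtain ⟨s, t, hst, h5⟩ := hM N F Z ℓ hF hℓ hno g
      (fun s => hcv _ (hg s)) fun s t i z => hs s t i z
    exact ⟨s, t, hst, Pool.Agent.Q72.GH.eq_of_diag (N := N) hk hG (hn t)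
      (fun z => ((hg s).2.1 z).1) h5⟩
  · intro f hf
    obtain ⟨a1, a2, a3⟩ := Pool.Agent.Q72.GH.rig hF hℓ hno (hcv f hf)
    refine ⟨⟨?_, fun h hh hnc hs => a2 h hh hnc fun i z => hs i z,
      fun b hb => a3 b fun i z => hb i z⟩, ?_, fun hv' hE b hb => ?_⟩
    · obtain ⟨M', hM'⟩ := a1
      exact ⟨M', fun g hg hc hs => hM' g (fun s => hcv _ (hg s)) (fun s => hc s)
        fun s i z => hs s i z⟩
    · rintro ⟨i0, hi0, hd0⟩
      obtain ⟨c, hc⟩ := Pool.Agent.Q72.GH.rat hF hℓ hno hi0 hd0 (hcv f hf)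
      exact ⟨c, fun b hb => hc b fun i z => hb i z⟩
    · exact Pool.Agent.Q72.GH.exp_zero hF hℓ (fun r => h3s r ℂ F hF (hv' r)) (hcv f hf) hE
        fun i z => hb i z

end Pool.Agent.Results.MP_dc0411_ag.GeneralLogPairs
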