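import Pool.Agent.Q72.SH.RigAlg

/-!
MP_dc0411_ag, Q1: each of the conditions (2) and (3) implies the rigidity of all entire curves.
-/

set_option autoImplicit false

namespace Pool.Agent.Results.MP_dc0411_ag.RigidEntireCurves

open MvPolynomial
open Pool.Agent.W602.GT Pool.Agent.TH143.GT Pool.Agent.Q72.SH
open Pool.Agent.W603.BPR (EntireCurve)
open Pool.Agent.W603.GR (SubVarP OffQ)

/-- For all `n` and `d` there is a number `M` such that the following is true for all
quasi-projective algebraic sets `U` in `P^n` given by a set `E` of forms of degrees at most `d` and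
by `Q ≠ 0` for a form `Q` of degree `q ≤ d`.

(1) The following are equivalent: all nonconstant entire curves in `U` are rigid; all morphisms from
the multiplicative group to `U` are constant; for all points `x` only finitely many morphisms from
the multiplicative group to `U` map the unit element to `x`. (2) These conditions hold if all
subvarieties of `U` of positive dimension are of logarithmic general type.

(3) If they hold then among any `M + 1` nonconstant entire curves in `U` that have the same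
intersections, with multiplicities, with the coordinate hyperplanes, there are two that differ by an
invertible diagonal matrix of constants. (4) If they hold and `q > 0`, or if all subvarieties of `U`
of positive dimension are of logarithmic general type, then, for each nonconstant entire curve `f` in
`U`, all translations that leave the intersections of `f` with the coordinate hyperplanes invariant
are translations by rational multiples of one complex number. -/
theorem result (n d : ℕ) : ∃ M : ℕ, ∀ E : Set (MvPolynomial (Fin (n + 1)) ℂ),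
    (∀ F ∈ E, ∃ e ≤ d, F.IsHomogeneous e) →
    ∀ (Q : MvPolynomial (Fin (n + 1)) ℂ) (q : ℕ), q ≤ d → Q.IsHomogeneous q →
    List.TFAE [∀ f, EntireCurve (Ideal.span E) Q f → Rigid E Q f,
      ∀ T, GmMor E Q T → ¬ GmNC T,
      ∀ x : Fin (n + 1) → ℂ, ∃ N : ℕ, ∀ T : Fin (N + 1) → Fin (n + 1) → Polynomial ℂ,
        (∀ s, GmMor E Q (T s)) → (∀ s, ∃ c : ℂ, (fun j => (T s j).eval 1) = c • x) →
        ∃ s t, s ≠ t ∧ SameMor (T s) (T t)] ∧
    ((∀ (K : Type) [Field K] [Algebra ℂ K] (w : ℕ) (y : Fin (n + 1) → K),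
        SubVarP (Ideal.span E) Q K w y → 0 < w → LogGeneralType ℂ K w (OffQ Q q y)) →
      (∀ f, EntireCurve (Ideal.span E) Q f → Rigid E Q f ∧ RatPeriods f) ∧
      ∀ T, GmMor E Q T → ¬ GmNC T) ∧
    ((∀ T, GmMor E Q T → ¬ GmNC T) → ∀ g : Fin (M + 1) → ℂ → Fin (n + 1) → ℂ,
      (∀ s, EntireCurve (Ideal.span E) Q (g s)) →
      (∀ s t, SameSections (g s) (g t)) → ∃ s t, s ≠ t ∧ DiagEq (g s) (g t)) ∧
    ((∀ T, GmMor E Q T → ¬ GmNC T) → 0 < q → ∀ f, EntireCurve (Ideal.span E) Q f →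
      RatPeriods f) := by
  obtain ⟨M, hM⟩ := diag_or_weighted n d
  refine ⟨M, fun E hE Q q hq hQ => ?_⟩
  have hJ : ∀ H ∈ ({1} : Set (MvPolynomial (Fin (n + 1)) ℂ)), IsForm H := by
    rintro _ rfl
    exact ⟨0, isHomogeneous_one _ _⟩
  have hne : ∀ x : Fin (n + 1) → ℂ, ¬ InD {1} x := by
    intro x hx
    have h1 := hx 1 rfl
    rw [map_one] at h1
    exact one_ne_zero h1
  have hE' : ∀ F ∈ E, IsForm F := fun F hF => by
    obtain ⟨e, -, he⟩ := hE F hF
    exact ⟨e, he⟩
  have hgm : GmIn E Q {1} ↔ ∀ T, GmMor E Q T → ¬ GmNC T :=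
    ⟨fun h T hT hN => hne _ (h T hT hN 1 one_ne_zero), fun h T hT hN => absurd hN (h T hT)⟩
  have ht := rig_tfae hE hq hQ hJ
  have e1 : (∀ f, EntireCurve (Ideal.span E) Q f → (∃ z, ¬ InD {1} (f z)) → Rigid E Q f) ↔
      ∀ f, EntireCurve (Ideal.span E) Q f → Rigid E Q f :=
    ⟨fun h f hf => h f hf ⟨0, hne _⟩, fun h f hf _ => h f hf⟩
  have e3 : GmPointed E Q {1} ↔ ∀ x : Fin (n + 1) → ℂ, ∃ N : ℕ,
      ∀ T : Fin (N + 1) → Fin (n + 1) → Polynomial ℂ,
        (∀ s, GmMor E Q (T s)) → (∀ s, ∃ c : ℂ, (fun j => (T s j).eval 1) = c • x) →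
        ∃ s t, s ≠ t ∧ SameMor (T s) (T t) :=
    ⟨fun h x => h x (hne x), fun h x _ => h x⟩
  have h12 := ht.out 0 1
  have h23 := ht.out 1 2
  rw [e1, hgm] at h12
  rw [hgm, e3] at h23
  have hrat : (∀ T, GmMor E Q T → ¬ GmNC T) → ∀ f, EntireCurve (Ideal.span E) Q f →
      (∀ ω₁ ω₂ : ℂ, SameCurve (fun z => f (z + ω₁)) f → SameCurve (fun z => f (z + ω₂)) f →
        ¬ LinearIndependent ℝ ![ω₁, ω₂]) → RatPeriods f := by
    intro h f hf hnt
    obtain ⟨-, M', hM'⟩ := rigid_of_gmIn hE hq hQ hJ (hgm.2 h) hf ⟨0, hne _⟩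
    exact periods hM' (EC.idl hf) (zd_idl f) hnt
  refine ⟨?_, fun h => ?_, fun h g hg hs => ?_, fun h hq0 f hf => ?_⟩
  · tfae_have 1 ↔ 2 := h12
    tfae_have 2 ↔ 3 := h23
    tfae_finish
  · have h1 : ∀ T, GmMor E Q T → ¬ GmNC T := fun T hT =>
      not_gmNC hE' hQ (fun K _ _ w y h2 h3 => Or.inl (h K w y h2 h3)) hT
    refine ⟨fun f hf => ⟨h12.2 h1 f hf, hrat h1 f hf fun ω₁ ω₂ p1 p2 => ?_⟩, h1⟩
    obtain ⟨K, i1, i2, w, y, h2, h3, h4, h5⟩ := exists_sub_curve hE' hQ hf
    exact no_torus h3 hQ (h K w y h2 h4) (EC.idl hf) (zd_idl f) p1 p2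
  · rcases hM E hE Q q hq hQ g hg hs with h1 | ⟨s, h1⟩
    · exact h1
    · exact absurd (inD_of_gm hJ (hgm.2 h) (weighted_spGm hE hq hQ (hg s) h1 0)) (hne _)
  · exact hrat h f hf fun ω₁ ω₂ p1 p2 => affine_not_torus hf hQ hq0.ne' p1 p2

end Pool.Agent.Results.MP_dc0411_ag.RigidEntireCurves
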