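import Pool.Agent.Q64.LC.Uma
import Pool.Agent.Q64.LC.Ptd

/-!
# Pointed finiteness, subvarieties and entire curves of slow growth through given points

Let `k` be a countable subfield of `ℂ`, for example the field of algebraic numbers. There is one
function `Ψ`, growing faster than all polynomials, with the following properties for all `U = X - D`,
where `X ⊂ ℙ ^ n` is a projective algebraic set over `k` and `D` is its intersection with a
hypersurface `Q = 0` over `k`. Slow curves are the nonconstant entire curves in `U` with entire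
homogeneous coordinates `f` such that `Q (f)` is constant and `‖f z‖ ≤ C * Ψ ‖z‖` for large `z`.

1. Let `z 0, …, z r ∈ k`, and let `x 0, …, x r` be points of `ℙ ^ n` with coordinates in `k`. There
is a slow curve with the value `x i` at `z i` for all `i` if and only if there is a nonconstant
morphism `𝔸 ^ 1 → U` with this property, and if and only if there are infinitely many morphisms
`𝔸 ^ 1 → U` with this property.

2. For every point `x` with coordinates in `k`, there is a slow curve through `x` if and only if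
there are infinitely many morphisms `𝔸 ^ 1 → U` which map the origin to `x`.

3. If all closed subvarieties of positive dimension of `U` which contain the point `x` with
coordinates in `k` have nonzero logarithmic pluricanonical forms, then there is no slow curve through
`x`, and there is at most one morphism `𝔸 ^ 1 → U` which maps the origin to `x`.
-/

set_option autoImplicit false

namespace Pool.Agent.Results.MP_dc0411_ag.SlowPointwise

open MvPolynomial Pool.Agent.TH143.GT Pool.Agent.W602.GT Pool.Agent.W603.GR Pool.Agent.W603.PV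
open Pool.Agent.Q64.LC

/-- All closed subvarieties of positive dimension of `X - D` through the point `x` have nonzero
logarithmic pluricanonical forms. -/
def FormsThrough {n : ℕ} (p : Ideal (MvPolynomial (Fin (n + 1)) ℂ))
    (Q : MvPolynomial (Fin (n + 1)) ℂ) (q : ℕ) (x : Fin (n + 1) → ℂ) : Prop :=
  ∀ (w : ℕ) (K : Type) [Field K] [Algebra ℂ K] (y : Fin (n + 1) → K), SubVarP p Q K w y → 1 ≤ w →
    (∀ G, IsForm G → W602.GT.val y G = 0 → eval x G = 0) →
    ∃ N : ℕ, 0 < N ∧ ∃ ω : (Fin w → Derivation ℂ K K) → K,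
      LogSec ℂ K w N (OffQ Q q y) ω ∧ ω ≠ 0

/-- The value at `0` of a morphism can be prescribed. -/
theorem hasMor_zero {n : ℕ} {p : Ideal (MvPolynomial (Fin (n + 1)) ℂ)}
    {Q : MvPolynomial (Fin (n + 1)) ℂ} {x : Fin (n + 1) → ℂ} :
    HasMor p Q (fun _ : Fin (0 + 1) => 0) (fun _ => x) ↔
      ∃ T, Mor p Q T ∧ NC T ∧ ∃ u c : ℂ, x = c • fun j => (T j).eval u := by
  constructor
  · rintro ⟨T, hT, hN, h⟩
    obtain ⟨c, hc⟩ := h 0
    exact ⟨T, hT, hN, 0, c, hc⟩
  · rintro ⟨T, hT, hN, u, c, hc⟩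
    refine ⟨fun j => (T j).comp (Polynomial.X + Polynomial.C u), hT.comp _, ?_, fun _ => ⟨c, ?_⟩⟩
    · obtain ⟨s, t, j, k, hst⟩ := hN
      refine ⟨s - u, t - u, j, k, ?_⟩
      simpa [Polynomial.eval_comp] using hst
    · rw [hc]
      funext j
      simp [Polynomial.eval_comp]

/-- Removing common zeros. -/
theorem hasMor_of_poly {n q : ℕ} {p : Ideal (MvPolynomial (Fin (n + 1)) ℂ)}
    {Q : MvPolynomial (Fin (n + 1)) ℂ} (hQ : Q.IsHomogeneous q) {r : ℕ} {z : Fin r → ℂ}
    {x : Fin r → Fin (n + 1) → ℂ} {T : Fin (n + 1) → Polynomial ℂ} (hT : PolyCurve p Q T)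
    (h : ∀ i, ∃ c : ℂ, x i = c • fun j => (T j).eval (z i)) : HasMor p Q z x := by
  obtain ⟨g, T', hg, hM, hN⟩ := hT.reduce hQ
  refine ⟨T', hM, hN, fun i => ?_⟩
  obtain ⟨c, hc⟩ := h i
  refine ⟨c * g.eval (z i), ?_⟩
  rw [hc]
  funext j
  simp only [Pi.smul_apply, smul_eq_mul, hg j, Polynomial.eval_mul]
  ring

theorem result (k : Subfield ℂ) [Countable k] :
    ∃ Ψ : ℝ → ℝ, SuperPoly Ψ ∧ ∀ (n : ℕ) (p : Ideal (MvPolynomial (Fin (n + 1)) ℂ))
      (Q : MvPolynomial (Fin (n + 1)) ℂ) (q : ℕ), IsHomog p → Q.IsHomogeneous q →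
      OverK k p → CoeffK k Q →
      -- prescribed values at finitely many points
      (∀ (r : ℕ) (z : Fin (r + 1) → ℂ) (x : Fin (r + 1) → Fin (n + 1) → ℂ),
        (∀ i, z i ∈ k ∧ x i ≠ 0 ∧ ∀ j, x i j ∈ k) →
        List.TFAE [
          ∃ f, Entire p Q f ∧ GrowthLe Ψ f ∧ ∀ i, ∃ c : ℂ, x i = c • f (z i),
          HasMor p Q z x,
          (PtMors p Q z x).Infinite]) ∧
      -- one point
      (∀ x : Fin (n + 1) → ℂ, x ≠ 0 → (∀ j, x j ∈ k) →
        List.TFAE [
          ∃ f, Entire p Q f ∧ GrowthLe Ψ f ∧ ∃ z c : ℂ, x = c • f z,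
          HasMor p Q (fun _ : Fin (0 + 1) => 0) (fun _ => x),
          (PtMors p Q (fun _ : Fin (0 + 1) => 0) (fun _ => x)).Infinite]) ∧
      -- subvarieties through a point
      (∀ x : Fin (n + 1) → ℂ, x ≠ 0 → (∀ j, x j ∈ k) → FormsThrough p Q q x →
        (∀ f, Entire p Q f → GrowthLe Ψ f → ∀ z c : ℂ, x ≠ c • f z) ∧
        (PtMors p Q (fun _ : Fin (0 + 1) => 0) (fun _ => x)).Finite) := by
  obtain ⟨Ψ, h1, h2⟩ := uni_main k
  refine ⟨Ψ, h1, fun n p Q q hp hQ hpk hQk => ?_⟩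
  obtain ⟨-, -, -, h5⟩ := h2 n p Q q hp hQ hpk hQk
  have hpt : ∀ x : Fin (n + 1) → ℂ, x ≠ 0 → (∀ j, x j ∈ k) →
        List.TFAE [
          ∃ f, Entire p Q f ∧ GrowthLe Ψ f ∧ ∃ z c : ℂ, x = c • f z,
          HasMor p Q (fun _ : Fin (0 + 1) => 0) (fun _ => x),
          (PtMors p Q (fun _ : Fin (0 + 1) => 0) (fun _ => x)).Infinite] := by
    intro x hx hxk
    tfae_have 2 ↔ 3 := by
      have h6 := ptMors_finite_iff (p := p) (Q := Q) (fun _ : Fin (0 + 1) => (0 : ℂ))
        (x := fun _ => x) (fun _ => hx)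
      unfold Set.Infinite
      rw [h6, not_not]
    tfae_have 1 → 2 := by
      rintro ⟨f, hf, hg, z, c, hzc⟩
      obtain ⟨T, hT, h6⟩ := (h5 1 f hf hg).1 (fun _ => x) (fun _ => hxk) fun _ => ⟨z, c, hzc⟩
      obtain ⟨u, b, hub⟩ := h6 0
      rw [hasMor_zero]
      obtain ⟨T', hM, hN, h7⟩ := hasMor_of_poly hQ (z := fun _ : Fin 1 => u) (x := fun _ => x) hT
        fun _ => ⟨b, hub⟩
      obtain ⟨b', hb'⟩ := h7 0
      exact ⟨T', hM, hN, u, b', hb'⟩
    tfae_have 2 → 1 := by
      rintro ⟨T, hM, hN, h6⟩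
      obtain ⟨c, hc⟩ := h6 0
      exact ⟨_, (hM.poly hN).entire, growthLe_poly h1 T, 0, c, hc⟩
    tfae_finish
  refine ⟨fun r z x hzx => ?_, hpt, fun x hx hxk hF => ?_⟩
  · tfae_have 2 ↔ 3 := by
      have h6 := ptMors_finite_iff (p := p) (Q := Q) z (x := x) (fun i => (hzx i).2.1)
      unfold Set.Infinite
      rw [h6, not_not]
    tfae_have 1 → 2 := by
      rintro ⟨f, hf, hg, hfx⟩
      obtain ⟨T, hT, h6⟩ := (h5 (r + 1) f hf hg).2 z x (fun i => (hzx i).1)
        (fun i => (hzx i).2.2) hfx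
      exact hasMor_of_poly hQ hT h6
    tfae_have 2 → 1 := by
      rintro ⟨T, hM, hN, h6⟩
      exact ⟨_, (hM.poly hN).entire, growthLe_poly h1 T, h6⟩
    tfae_finish
  · have hno : ¬ HasMor p Q (fun _ : Fin (0 + 1) => 0) (fun _ => x) := by
      rw [hasMor_zero]
      rintro ⟨T, hT, hN, u, c, hc⟩
      obtain ⟨K, i1, i2, w, y, hsub, hw, hcl, h6⟩ := sub_of_mor hp hQ hT hN
      obtain ⟨N, hNp, ω, hω, hω0⟩ := hF w K y hsub hw (by
        rintro G ⟨d, hd⟩ hG0
        have h7 := (hcl G ⟨d, hd⟩).1 hG0 u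
        have h8 := eval_mul_form hd c fun j => (T j).eval u
        rw [h7, mul_zero] at h8
        rw [hc]
        exact h8)
      exact hω0 (h6 N hNp ω hω)
    refine ⟨fun f hf hg z c hzc => hno ?_, ?_⟩
    · have h7 : (∃ f, Entire p Q f ∧ GrowthLe Ψ f ∧ ∃ z c : ℂ, x = c • f z) →
          HasMor p Q (fun _ : Fin (0 + 1) => 0) (fun _ => x) := ((hpt x hx hxk).out 0 1).1
      exact h7 ⟨f, hf, hg, z, c, hzc⟩
    · exact (ptMors_finite_iff _ fun _ => hx).2 hno

end Pool.Agent.Results.MP_dc0411_ag.SlowPointwise
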